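import Pool.Agent.Lib.MP_5ff43f_an.Sol

/-!
# Minimisers of the confined second-order Beckmann problem need not split

Negative answer to Q1: there are a bounded connected open set `Ω ⊆ ℝ²` with Lipschitz boundary and
a finite signed measure `f` on its closure for which the confined second-order Beckmann problem
`I(f, Ω)` has a solution of finite cost, but no solution has the form `σ_π + σ_∂Ω` with a finite
three-marginal measure `π` and a finite tensor measure `σ_∂Ω` on the boundary.

Sketch.  Write `x = (s, t)`, let `f = δ(-1,0) - δ(0,-1) + δ(2,1) - δ(1,2)` and let `Ω` be the part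
of the square `(-4,4)²` where `t < 0` or `g(t) < s`, with `g(t) = min(t,1) - dist(t,K)/2` and
`K = (-∞,0] ∪ [1,∞) ∪ {2^(-k)}`.  The function `(s² - t²)/2` is a dual certificate, so each solution
has a density `diag(α, -β)` with `α, β ≥ 0` and cost `4`.  Testing with products of one-variable
functions determines the conditional means of `s` and `t` under the two marginals; together with the
contact points `(2^(-k), 2^(-k))` of the diagonal with `∂Ω` this forces a mass of order `2^(-k)`
inside `Ω` near each scale `2^(-k)` on which a test vector field with divergence of constant sign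
sees a fixed amount.  Hence the distributional divergence of `σ` in `Ω` is not a finite measure,
whereas that of `σ_π` is one for each finite `π`.
-/

open MeasureTheory Set
open scoped ENNReal

namespace Pool.Agent.Results.MP_5ff43f_an.ConfinedBeckmann

open Pool.Agent.Lib.MP_5ff43f_an

/-- There are a bounded domain `Ω ⊆ ℝ²` with Lipschitz boundary and a finite signed measure `f` on
`closure Ω` such that `I(f, Ω)` has a solution of finite cost, while no solution of `I(f, Ω)` has
the form `σ_π + σ_∂Ω`. -/
theorem result :
    ∃ (Ω : Set (E 2)) (f : SignedMeasure (E 2)),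
      IsOpen Ω ∧ IsConnected Ω ∧ Bornology.IsBounded Ω ∧ HasLipschitzBoundary Ω ∧
      f.totalVariation (closure Ω)ᶜ = 0 ∧
      (∃ σ : TensorMeasure 2, IsSolution Ω f σ ∧ σ.cost < ⊤) ∧
      ∀ σ : TensorMeasure 2, IsSolution Ω f σ → ¬ HasForm Ω σ :=
  ⟨Om, ff, isOpen_Om, isConnected_Om, isBounded_Om, lipschitz_Om, ff_supp,
    ⟨sol, sol_isSolution, by rw [sol_cost]; simp⟩, fun _ h => (solution_good h).not_form⟩

end Pool.Agent.Results.MP_5ff43f_an.ConfinedBeckmann
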